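import Pool.Agent.H699.MW.Gr

/-!
REC: the recursion for matchings (project MW of helper699)
-/

set_option autoImplicit false

open MeasureTheory Finset
open scoped Classical

namespace Pool.Agent.H287.MW.REC

open Pool.Agent.H699.MW

variable {V : Type} [Fintype V] {G : SimpleGraph V} {ω : Sym2 V → ℝ} {S : Finset V}

theorem mem_mats {M : Finset (Sym2 V)} : M ∈ mats G S ↔ IsM G S M := by
  unfold mats
  rw [Finset.mem_filter]
  exact ⟨fun h => h.2, fun h => ⟨Finset.mem_univ _, h⟩⟩

theorem le_opt {M : Finset (Sym2 V)} (h : IsM G S M) : ∑ e ∈ M, ω e ≤ opt G ω S :=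
  Finset.le_sup' (fun M => ∑ e ∈ M, ω e) (mem_mats.2 h)

theorem exists_opt (G : SimpleGraph V) (ω : Sym2 V → ℝ) (S : Finset V) :
    ∃ M, IsM G S M ∧ opt G ω S = ∑ e ∈ M, ω e := by
  obtain ⟨M, hM, h⟩ := Finset.exists_mem_eq_sup' ⟨∅, empty_mem_mats G S⟩
    (fun M => ∑ e ∈ M, ω e)
  exact ⟨M, mem_mats.1 hM, h⟩

/-- (i) -/
theorem opt_erase (v : V) : opt G ω (S.erase v) ≤ opt G ω S := by
  obtain ⟨M, hM, h⟩ := exists_opt G ω (S.erase v)
  rw [h]
  exact le_opt ⟨fun e he => ⟨(hM.1 e he).1, fun x hx =>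
    Finset.mem_of_mem_erase ((hM.1 e he).2 x hx)⟩, hM.2⟩

/-- (ii) -/
theorem opt_add {v x : V} (hv : v ∈ S) (hx : x ∈ nb G S v) :
    ω s(v, x) + opt G ω ((S.erase v).erase x) ≤ opt G ω S := by
  obtain ⟨M, hM, h⟩ := exists_opt G ω ((S.erase v).erase x)
  unfold nb at hx
  rw [Finset.mem_filter] at hx
  obtain ⟨hx1, hx2⟩ := hx
  have hxS : x ∈ S := Finset.mem_of_mem_erase hx1
  have hvM : ∀ f ∈ M, v ∉ f := by
    intro f hf hvf
    exact Finset.notMem_erase v S (Finset.mem_of_mem_erase ((hM.1 f hf).2 v hvf))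
  have hxM : ∀ f ∈ M, x ∉ f := by
    intro f hf hxf
    exact Finset.notMem_erase x _ ((hM.1 f hf).2 x hxf)
  have hnot : s(v, x) ∉ M := fun hc => hvM _ hc (Sym2.mem_mk_left v x)
  have h1 : IsM G S (insert s(v, x) M) := by
    constructor
    · intro e he
      rcases Finset.mem_insert.1 he with rfl | he
      · refine ⟨by rw [SimpleGraph.mem_edgeSet]; exact hx2, fun y hy => ?_⟩
        rcases Sym2.mem_iff.1 hy with rfl | rfl
        · exact hv
        · exact hxS
      · exact ⟨(hM.1 e he).1, fun y hy => Finset.mem_of_mem_erase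
          (Finset.mem_of_mem_erase ((hM.1 e he).2 y hy))⟩
    · intro e he f hf hef y hye hyf
      rcases Finset.mem_insert.1 he with h1 | h1
      · rcases Finset.mem_insert.1 hf with h2 | h2
        · exact hef (h1.trans h2.symm)
        · rw [h1] at hye
          rcases Sym2.mem_iff.1 hye with h3 | h3
          · exact hvM f h2 (h3 ▸ hyf)
          · exact hxM f h2 (h3 ▸ hyf)
      · rcases Finset.mem_insert.1 hf with h2 | h2
        · rw [h2] at hyf
          rcases Sym2.mem_iff.1 hyf with h3 | h3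
          · exact hvM e h1 (h3 ▸ hye)
          · exact hxM e h1 (h3 ▸ hye)
        · exact hM.2 e h1 f h2 hef y hye hyf
  have h2 := le_opt (ω := ω) h1
  rw [Finset.sum_insert hnot, ← h] at h2
  exact h2

/-- (iii) -/
theorem opt_le (v : V) : opt G ω S ≤ opt G ω (S.erase v) ∨
    ∃ x ∈ nb G S v, opt G ω S ≤ ω s(v, x) + opt G ω ((S.erase v).erase x) := by
  obtain ⟨M, hM, h⟩ := exists_opt G ω S
  by_cases hv : ∃ e ∈ M, v ∈ e
  · right
    obtain ⟨e, he, hve⟩ := hv
    obtain ⟨x, rfl⟩ := Sym2.mem_iff_exists.1 hve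
    have hadj : G.Adj v x := by
      have := (hM.1 _ he).1
      rwa [SimpleGraph.mem_edgeSet] at this
    have hxS : x ∈ S := (hM.1 _ he).2 x (Sym2.mem_mk_right v x)
    refine ⟨x, ?_, ?_⟩
    · unfold nb
      rw [Finset.mem_filter]
      exact ⟨Finset.mem_erase.2 ⟨hadj.ne', hxS⟩, hadj⟩
    · have h1 : IsM G ((S.erase v).erase x) (M.erase s(v, x)) := by
        constructor
        · intro f hf
          obtain ⟨hf1, hf2⟩ := Finset.mem_erase.1 hf
          refine ⟨(hM.1 f hf2).1, fun y hy => ?_⟩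
          rw [Finset.mem_erase, Finset.mem_erase]
          refine ⟨?_, ?_, (hM.1 f hf2).2 y hy⟩
          · rintro rfl
            exact hM.2 _ he f hf2 (Ne.symm hf1) y (Sym2.mem_mk_right v y) hy
          · rintro rfl
            exact hM.2 _ he f hf2 (Ne.symm hf1) y (Sym2.mem_mk_left y x) hy
        · intro f hf g hg
          exact hM.2 f (Finset.mem_of_mem_erase hf) g (Finset.mem_of_mem_erase hg)
      have h2 := le_opt (ω := ω) h1
      rw [h, ← Finset.add_sum_erase M ω he]
      linarith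
  · left
    rw [h]
    refine le_opt ⟨fun e he => ⟨(hM.1 e he).1, fun x hx => ?_⟩, hM.2⟩
    rw [Finset.mem_erase]
    refine ⟨?_, (hM.1 e he).2 x hx⟩
    rintro rfl
    exact hv ⟨e, he, hx⟩

theorem t_REC : S_REC := by
  intro V _ G ω S v hv
  unfold pmax
  apply le_antisymm
  · rw [Finset.le_fold_max]
    rcases opt_le (G := G) (ω := ω) (S := S) v with h | ⟨x, hx, h⟩
    · left
      unfold X
      linarith
    · right
      refine ⟨x, hx, ?_⟩
      unfold X
      linarith
  · rw [Finset.fold_max_le]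
    refine ⟨?_, fun x hx => ?_⟩
    · have := opt_erase (G := G) (ω := ω) (S := S) v
      unfold X
      linarith
    · have := opt_add (G := G) (ω := ω) hv hx
      unfold X
      linarith

end Pool.Agent.H287.MW.REC
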